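import Pool.Agent.Helper93.DC.Tstar

set_option autoImplicit false

/-!
# Disjoint cycles through specified vertices: many common neighbours

`common_nbrs`: in a `(2k+s)`-connected graph with at least `3k` vertices, if some `k - s` vertices
of `X` have at least `k` common neighbours outside `X`, the `k` disjoint cycles exist.
`half_sqrt`: connectivity `3k - 1 - t` suffices as soon as `2 t ^ 2 ≤ k`.
-/

namespace Pool.Agent.Helper93.DC

open Finset

open Pool.Agent.DC (KConn DisjCycles outN criterion kconn_degree outN_card spread_sep)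

/-- The failure of the criterion, second form. -/
theorem bad_pair' {V : Type} [Fintype V] [DecidableEq V] (G : SimpleGraph V) [DecidableRel G.Adj]
    (k s : ℕ) (hk : 1 ≤ k) (hG : KConn G (2 * k + s))
    (X R : Finset V) (hX : X.card = k) (hXR : Disjoint X R) (hR : R.card = k)
    (hno : ¬ DisjCycles G X) :
    ∃ K D : Finset V, K ⊆ X ∧ Disjoint D X ∧ Disjoint D R ∧ D.card < K.card ∧
      (∀ x ∈ K, (outN G X x \ D).card ≤ k) ∧
      ∀ x ∈ K, k + s + 1 ≤ (D.filter fun v => G.Adj x v).card + k := by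
  by_contra hcon
  apply hno
  have hV : 2 * k + s < Fintype.card V := hG.1
  refine criterion G X R hXR (by rw [hR, hX]) (card_pos.1 (by omega)) ?_ ?_ ?_
  · by_contra hc
    push Not at hc
    have h1 : (univ : Finset V) ⊆ X ∪ R := by
      intro v _
      rw [mem_union]
      by_cases hv : v ∈ X
      · exact Or.inl hv
      · exact Or.inr (hc v hv)
    have h2 := card_le_card h1
    have h3 := card_union_le X R
    rw [card_univ] at h2
    omega
  · intro Z hZX hZ
    have h1 : (X ∪ Z).card < 2 * k + s := by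
      have := card_union_le X Z
      omega
    have h2 : {v | v ∉ X ∪ Z} = {v | v ∉ X ∧ v ∉ Z} := by
      ext v
      simp [mem_union]
    rw [← h2]
    exact hG.2 (X ∪ Z) h1
  · intro D hDX hDR
    change (X.filter fun x => (outN G X x \ D).card ≤ X.card).card ≤ D.card
    rw [hX]
    by_contra hlt
    push Not at hlt
    apply hcon
    refine ⟨X.filter fun x => (outN G X x \ D).card ≤ k, D, filter_subset _ _, hDX, hDR, hlt,
      fun x hx => (mem_filter.mp hx).2, fun x hx => ?_⟩
    obtain ⟨hxX, hx2⟩ := mem_filter.mp hx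
    have h1 := outN_card G hG X x hxX
    have h2 : outN G X x ⊆ (outN G X x \ D) ∪ (D.filter fun v => G.Adj x v) := by
      intro y hy
      have hy' := (mem_filter.mp hy).2
      rw [mem_union, mem_sdiff, mem_filter]
      by_cases hyD : y ∈ D
      · exact Or.inr ⟨hyD, hy'.1⟩
      · exact Or.inl ⟨hy, hyD⟩
    have h3 := card_le_card h2
    have h4 := card_union_le (outN G X x \ D) (D.filter fun v => G.Adj x v)
    omega

/-- **Theorem S.** If some `k - s` vertices of `X` have at least `k` common neighbours outside `X`,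
connectivity `2k + s` suffices. -/
theorem common_nbrs {V : Type} [Fintype V] [DecidableEq V] (G : SimpleGraph V)
    [DecidableRel G.Adj] (k s : ℕ) (hk : 1 ≤ k) (hG : KConn G (2 * k + s))
    (hV : 3 * k ≤ Fintype.card V) (X : Finset V) (hX : X.card = k)
    (T : Finset V) (hTX : T ⊆ X) (hT : k ≤ T.card + s) (hcom : k ≤ (comN G Xᶜ T).card) :
    DisjCycles G X := by
  by_contra hno
  obtain ⟨R, hRT, hR⟩ := exists_subset_card_eq hcom
  have hXR : Disjoint X R := by
    rw [disjoint_right]
    intro v hv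
    have := hRT hv
    rw [mem_comN, mem_compl] at this
    exact this.1
  obtain ⟨K, D, hKX, hDX, hDR, hDK, hout, hdeg⟩ := bad_pair' G k s hk hG X R hX hXR hR hno
  have hKk : K.card ≤ k := hX ▸ card_le_card hKX
  -- the common vertices
  have hY : T.card + K.card ≤ (T ∩ K).card + k := by
    have h1 := card_union_add_card_inter T K
    have h2 : (T ∪ K).card ≤ X.card := card_le_card (union_subset hTX hKX)
    omega
  obtain ⟨x₀, hx₀⟩ : K.Nonempty := card_pos.mp (by omega)
  have hDs : s + 1 ≤ D.card := by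
    have h1 := hdeg x₀ hx₀
    have h2 := card_filter_le D fun v => G.Adj x₀ v
    omega
  obtain ⟨x, hx⟩ : (T ∩ K).Nonempty := card_pos.mp (by omega)
  -- a vertex outside everything
  obtain ⟨z, hz⟩ : ∃ z, z ∉ (X ∪ R) ∪ D := by
    by_contra hc
    push Not at hc
    have h1 : (univ : Finset V) ⊆ (X ∪ R) ∪ D := fun v _ => hc v
    have h2 := card_le_card h1
    have h3 := card_union_le (X ∪ R) D
    have h4 := card_union_le X R
    rw [card_univ] at h2
    omega
  rw [mem_union, mem_union, not_or, not_or] at hz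
  have hsub : ∀ y ∈ T ∩ K, outN G X y ⊆ R ∪ D := by
    intro y hy
    obtain ⟨hyT, hyK⟩ := mem_inter.mp hy
    have h1 : R ⊆ outN G X y \ D := by
      intro v hv
      have h2 := hRT hv
      rw [mem_comN, mem_compl] at h2
      rw [mem_sdiff]
      exact ⟨mem_filter.mpr ⟨mem_univ _, h2.2 y hyT, h2.1⟩, fun h => disjoint_left.mp hDR h hv⟩
    have h2 : outN G X y \ D = R :=
      (eq_of_subset_of_card_le h1 (by rw [hR]; exact hout y hyK)).symm
    intro v hv
    rw [mem_union]
    by_cases hvD : v ∈ D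
    · exact Or.inr hvD
    · left
      rw [← h2]
      exact mem_sdiff.mpr ⟨hv, hvD⟩
  have hsep := spread_sep hG (T ∩ K) ((R ∪ D) ∪ (X \ (T ∩ K))) x z hx ?_ ?_ ?_ ?_
  · have h1 := card_union_le (R ∪ D) (X \ (T ∩ K))
    have h2 := card_union_le R D
    have h3 := card_sdiff_add_card_eq_card (inter_subset_right.trans hKX : T ∩ K ⊆ X)
    omega
  · rw [mem_union, mem_union, mem_sdiff]
    have hxX : x ∈ X := hKX (mem_inter.mp hx).2
    rintro ((h | h) | h)
    · exact disjoint_left.mp hXR hxX h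
    · exact disjoint_left.mp hDX h hxX
    · exact h.2 hx
  · intro h
    exact hz.1.1 (hKX (mem_inter.mp h).2)
  · rw [mem_union, mem_union, mem_sdiff]
    rintro ((h | h) | h)
    · exact hz.1.2 h
    · exact hz.2 h
    · exact hz.1.1 h.1
  · intro u hu v huv
    by_cases hvY : v ∈ T ∩ K
    · exact Or.inl hvY
    · right
      rw [mem_union, mem_sdiff]
      by_cases hvX : v ∈ X
      · exact Or.inr ⟨hvX, hvY⟩
      · exact Or.inl (hsub u hu (mem_filter.mpr ⟨mem_univ _, huv, hvX⟩))

/-- The union bound for common neighbours. -/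
theorem comN_ge {V : Type} [DecidableEq V] (G : SimpleGraph V) [DecidableRel G.Adj]
    (D T : Finset V) (a : ℕ) (h : ∀ x ∈ T, D.card ≤ (D.filter fun v => G.Adj x v).card + a) :
    D.card ≤ (comN G D T).card + T.card * a := by
  have h1 : D ⊆ comN G D T ∪ T.biUnion fun x => D.filter fun v => ¬ G.Adj x v := by
    intro v hv
    rw [mem_union, mem_comN, mem_biUnion]
    by_cases hall : ∀ x ∈ T, G.Adj x v
    · exact Or.inl ⟨hv, hall⟩
    · push Not at hall
      obtain ⟨x, hx, hxv⟩ := hall
      exact Or.inr ⟨x, hx, mem_filter.mpr ⟨hv, hxv⟩⟩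
  have h2 := card_le_card h1
  have h3 := card_union_le (comN G D T) (T.biUnion fun x => D.filter fun v => ¬ G.Adj x v)
  have h4 : (T.biUnion fun x => D.filter fun v => ¬ G.Adj x v).card ≤ T.card * a := by
    refine card_biUnion_le_card_mul _ _ _ fun x hx => ?_
    have h5 := h x hx
    have h6 : (D.filter fun y => G.Adj x y).card + (D.filter fun y => ¬ G.Adj x y).card =
        D.card := by
      rw [← card_union_of_disjoint (disjoint_filter_filter_not _ _ _), filter_union_filter_not_eq]
    omega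
  omega

/-- **Corollary.** If `2 t ^ 2 ≤ k`, connectivity `3k - 1 - t` suffices. -/
theorem half_sqrt {V : Type} [Fintype V] [DecidableEq V] (G : SimpleGraph V)
    [DecidableRel G.Adj] (k t : ℕ) (hk : 1 ≤ k) (ht : 2 * t ^ 2 ≤ k)
    (hG : KConn G (3 * k - 1 - t)) (hV : 3 * k ≤ Fintype.card V) (X : Finset V)
    (hX : X.card = k) : DisjCycles G X := by
  by_contra hno
  have htk : 3 * t ≤ k + 1 ∧ t + 1 ≤ k := by
    rcases Nat.eq_zero_or_pos t with h0 | h0
    · subst h0
      omega
    · constructor <;> nlinarith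
  obtain ⟨s, hs⟩ : ∃ s, k = t + 1 + s := ⟨k - 1 - t, by omega⟩
  have hG' : KConn G (2 * k + s) := by
    have : 3 * k - 1 - t = 2 * k + s := by omega
    rwa [this] at hG
  have hXc : (Xᶜ).card = Fintype.card V - k := by rw [card_compl, hX]
  have hdisj : ∀ R : Finset V, R ⊆ Xᶜ → Disjoint X R := by
    intro R hRX
    rw [disjoint_right]
    intro v hv
    have := hRX hv
    rwa [mem_compl] at this
  obtain ⟨R₁, hR₁X, hR₁⟩ := exists_subset_card_eq (s := Xᶜ) (n := k) (by omega)
  obtain ⟨K₁, D₁, hK₁, hD₁X, -, hDK₁, -, hdeg₁⟩ :=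
    bad_pair' G k s hk hG' X R₁ hX (hdisj _ hR₁X) hR₁ hno
  have hK₁k : K₁.card ≤ k := hX ▸ card_le_card hK₁
  have hD₁c : D₁ ⊆ Xᶜ := by
    intro v hv
    rw [mem_compl]
    exact disjoint_left.mp hD₁X hv
  obtain ⟨R₂, hR₂D, hR₂X, hR₂⟩ := exists_subsuperset_card_eq (n := k) hD₁c (by omega) (by omega)
  obtain ⟨K₂, D₂, hK₂, hD₂X, hD₂R, hDK₂, -, hdeg₂⟩ :=
    bad_pair' G k s hk hG' X R₂ hX (hdisj _ hR₂X) hR₂ hno
  have hK₂k : K₂.card ≤ k := hX ▸ card_le_card hK₂
  have hD₂c : D₂ ⊆ Xᶜ := by
    intro v hv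
    rw [mem_compl]
    exact disjoint_left.mp hD₂X hv
  obtain ⟨x₁, hx₁⟩ : K₁.Nonempty := card_pos.mp (by omega)
  obtain ⟨x₂, hx₂⟩ : K₂.Nonempty := card_pos.mp (by omega)
  have hs₁ : s + 1 ≤ D₁.card := by
    have h1 := hdeg₁ x₁ hx₁
    have h2 := card_filter_le D₁ fun v => G.Adj x₁ v
    omega
  have hs₂ : s + 1 ≤ D₂.card := by
    have h1 := hdeg₂ x₂ hx₂
    have h2 := card_filter_le D₂ fun v => G.Adj x₂ v
    omega
  have hKK : K₁.card + K₂.card ≤ (K₁ ∩ K₂).card + k := by
    have h1 := card_union_add_card_inter K₁ K₂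
    have h2 : (K₁ ∪ K₂).card ≤ X.card := card_le_card (union_subset hK₁ hK₂)
    omega
  obtain ⟨T, hTK, hT⟩ := exists_subset_card_eq (s := K₁ ∩ K₂) (n := t + 1) (by omega)
  have hc : ∀ (D K : Finset V), T ⊆ K → D.card < k → s + 1 ≤ D.card →
      (∀ x ∈ K, k + s + 1 ≤ (D.filter fun v => G.Adj x v).card + k) →
      k ≤ (comN G D T).card + t ^ 2 := by
    intro D K hTK' hDk hDs hdeg
    obtain ⟨a, ha⟩ : ∃ a, D.card = s + 1 + a := ⟨D.card - (s + 1), by omega⟩
    have h1 := comN_ge G D T a fun x hx => by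
      have := hdeg x (hTK' hx)
      omega
    rw [hT] at h1
    have h2 : a + 1 ≤ t := by omega
    have h3 : t * (a + 1) ≤ t * t := Nat.mul_le_mul_left t h2
    have h4 : t ^ 2 = t * t := by ring
    have h5 : (t + 1) * a = t * a + a := by ring
    have h6 : t * (a + 1) = t * a + t := by ring
    rw [h5] at h1
    rw [h6] at h3
    rw [h4]
    omega
  have h₁ := hc D₁ K₁ (hTK.trans inter_subset_left) (by omega) hs₁ hdeg₁
  have h₂ := hc D₂ K₂ (hTK.trans inter_subset_right) (by omega) hs₂ hdeg₂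
  have hDD : Disjoint D₁ D₂ := by
    rw [disjoint_left]
    intro v hv hv'
    exact disjoint_left.mp hD₂R hv' (hR₂D hv)
  refine hno (common_nbrs G k s hk hG' hV X hX T (hTK.trans (inter_subset_left.trans hK₁))
    (by omega) ?_)
  have h3 : comN G D₁ T ∪ comN G D₂ T ⊆ comN G Xᶜ T := by
    intro v hv
    rw [mem_union, mem_comN, mem_comN] at hv
    rw [mem_comN]
    rcases hv with hv | hv
    · exact ⟨hD₁c hv.1, hv.2⟩
    · exact ⟨hD₂c hv.1, hv.2⟩
  have h4 : Disjoint (comN G D₁ T) (comN G D₂ T) := by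
    rw [disjoint_left]
    intro v hv hv'
    rw [mem_comN] at hv hv'
    exact disjoint_left.mp hDD hv.1 hv'.1
  have h5 := card_le_card h3
  rw [card_union_of_disjoint h4] at h5
  omega

end Pool.Agent.Helper93.DC
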