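import Pool.Agent.Helper18.DC.Thresh

set_option autoImplicit false

/-!
# Ordered thresholds

The thresholds of `Helper18/DC/Thresh.lean` are, in a suitable order, at most `1, 2, 3, ...`.
-/

namespace Pool.Agent.Helper93.DC

open Finset
open Pool.Agent.Helper18.DC

theorem steps_ord {ι α : Type*} [Fintype ι] [DecidableEq ι] [DecidableEq α] (Q : ι → Finset α)
    (hall : ∀ s : Finset ι, s.card ≤ (s.biUnion Q).card) (N : ℕ) (hN : N ≤ Fintype.card ι) :
    ∃ (Y : Finset ι) (c : ι → ℕ), Y.card = N ∧ (∀ i, i ∉ Y → c i = (Q i).card) ∧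
      (∀ i, 1 ≤ c i ∧ c i ≤ (Q i).card) ∧ Good Q c ∧
      ∀ g : ℕ → ℕ, Monotone g → ∑ i ∈ Y, g (c i) ≤ ∑ j ∈ range N, g (j + 1) := by
  induction N with
  | zero =>
    refine ⟨∅, fun i => (Q i).card, rfl, fun _ _ => rfl, fun i => ⟨?_, le_rfl⟩, ?_, by simp⟩
    · have h := hall {i}
      simpa using h
    · intro F
      have h := hall (cset Q (fun i => (Q i).card) F)
      refine h.trans (card_le_card ?_)
      intro a ha
      rw [mem_biUnion] at ha
      obtain ⟨i, hi, hai⟩ := ha
      simp only [cset, mem_filter, mem_univ, true_and] at hi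
      exact (card_le_inter_iff _ _).1 hi hai
  | succ N ih =>
    obtain ⟨Y, c, hYc, hY, hc, hg, hsum⟩ := ih (Nat.le_of_succ_le hN)
    have hne : ∃ i, i ∉ Y := by
      by_contra hcon
      push Not at hcon
      have : Y = univ := eq_univ_of_forall hcon
      rw [this, card_univ] at hYc
      omega
    obtain ⟨p, hp, hgp⟩ := step hY hg hne
    refine ⟨insert p Y, Function.update c p (min (Q p).card (Y.card + 1)), ?_, ?_, ?_, hgp, ?_⟩
    · rw [card_insert_of_notMem hp, hYc]
    · intro i hi
      rw [mem_insert, not_or] at hi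
      rw [Function.update_of_ne hi.1]
      exact hY i hi.2
    · intro i
      by_cases hip : i = p
      · subst hip
        rw [Function.update_self]
        have h1 := hc i
        refine ⟨?_, min_le_left _ _⟩
        rw [le_min_iff]
        omega
      · rw [Function.update_of_ne hip]
        exact hc i
    · intro g hgm
      rw [sum_insert hp, Function.update_self]
      have h1 : ∑ i ∈ Y, g (Function.update c p (min (Q p).card (Y.card + 1)) i) =
          ∑ i ∈ Y, g (c i) := by
        apply sum_congr rfl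
        intro i hi
        rw [Function.update_of_ne]
        rintro rfl
        exact hp hi
      rw [h1, sum_range_succ]
      have h2 : min (Q p).card (Y.card + 1) ≤ N + 1 := by
        rw [hYc]
        exact min_le_right _ _
      have h3 := hgm h2
      have h4 := hsum g hgm
      omega

/-- **Ordered thresholds.** -/
theorem exists_thresholds_ord {ι α : Type*} [Fintype ι] [DecidableEq α] (Q : ι → Finset α)
    (hall : ∀ s : Finset ι, s.card ≤ (s.biUnion Q).card) :
    ∃ c : ι → ℕ, (∀ i, 1 ≤ c i ∧ c i ≤ (Q i).card) ∧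
      (∀ g : ℕ → ℕ, Monotone g → ∑ i, g (c i) ≤ ∑ j ∈ range (Fintype.card ι), g (j + 1)) ∧
      ∀ F : Finset α, (univ.filter fun i => c i ≤ (Q i ∩ F).card).card ≤ F.card := by
  classical
  obtain ⟨Y, c, hYc, _, hc, hg, hsum⟩ := steps_ord Q hall (Fintype.card ι) le_rfl
  have hY : Y = univ := (card_eq_iff_eq_univ Y).mp hYc
  subst hY
  exact ⟨c, hc, hsum, hg⟩

end Pool.Agent.Helper93.DC
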