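import Pool.Agent.Helper76.DC.Main
import Pool.Agent.Helper93.DC.ThreshOrd

set_option autoImplicit false

/-!
# The square root theorem with thresholds

The roots avoid, for every special player `p`, as many of the ports missed by `p` as the threshold
of `p` asks.
-/

namespace Pool.Agent.Helper93.DC

open Finset
open Pool.Agent.Helper76.DC
open Pool.Agent.DC (KConn DisjCycles outN spread_sep)

theorem sum_shift_eq (t q : ℕ) :
    ∑ j ∈ range q, (j + 1 + t - q) = ∑ i ∈ range q, (t - i) := by
  induction q with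
  | zero => simp
  | succ q ih =>
    rw [sum_range_succ', sum_range_succ, ← ih]
    congr 1
    · refine sum_congr rfl fun j _ => ?_
      omega
    · omega

theorem two_sum_sub (t q : ℕ) :
    2 * ∑ i ∈ range q, (t - i) + (t - q) * (t - q + 1) = t * (t + 1) := by
  induction q with
  | zero => simp
  | succ q ih =>
    rw [sum_range_succ, ← ih]
    rcases Nat.lt_or_ge q t with h | h
    · obtain ⟨m, hm⟩ : ∃ m, t - q = m + 1 := ⟨t - q - 1, by omega⟩
      have hm' : t - (q + 1) = m := by omega
      rw [hm, hm']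
      ring
    · have h1 : t - q = 0 := by omega
      have h2 : t - (q + 1) = 0 := by omega
      rw [h1, h2]
      ring

theorem two_sum_shift (t q : ℕ) : 2 * ∑ j ∈ range q, (j + 1 + t - q) ≤ t * (t + 1) := by
  rw [sum_shift_eq, ← two_sum_sub t q]
  exact Nat.le_add_right _ _

/-- the roots -/
theorem exists_roots2 {W P : Type} [DecidableEq W] [DecidableEq P]
    (N : P → Finset W) (k t q : ℕ) (A : Finset W) (hA : A.card + q = 2 * k)
    (J : Finset P) (c : P → ℕ) (hc : 2 * ∑ p ∈ J, (c p + t - q) ≤ t * (t + 1))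
    (hqt : 2 * q + t * (t + 1) ≤ 2 * k) :
    ∃ R : Finset W, R ⊆ A ∧ R.card = k ∧
      ∀ p ∈ J, R ⊆ N p ∨ (R \ N p).card + (c p + t - q) ≤ (A \ N p).card := by
  classical
  have hT : ∀ p : P, ∃ T : Finset W, T ⊆ A \ N p ∧ T.card = min (c p + t - q) (A \ N p).card :=
    fun p => exists_subset_card_eq (min_le_right _ _)
  choose T hTs hTc using hT
  have hcard : (J.biUnion T).card ≤ ∑ p ∈ J, (c p + t - q) := by
    calc (J.biUnion T).card ≤ ∑ p ∈ J, (T p).card := card_biUnion_le
      _ ≤ ∑ p ∈ J, (c p + t - q) := sum_le_sum fun p _ => by rw [hTc]; exact min_le_left _ _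
  have h1 : k ≤ (A \ J.biUnion T).card := by
    have h2 := le_card_sdiff (J.biUnion T) A
    omega
  obtain ⟨R, hR, hRc⟩ := exists_subset_card_eq h1
  refine ⟨R, hR.trans sdiff_subset, hRc, fun p hp => ?_⟩
  have hRT : Disjoint R (T p) := by
    rw [disjoint_left]
    intro u hu huT
    exact (mem_sdiff.mp (hR hu)).2 (mem_biUnion.mpr ⟨p, hp, huT⟩)
  by_cases hle : (A \ N p).card ≤ c p + t - q
  · left
    have hTeq : T p = A \ N p :=
      eq_of_subset_of_card_le (hTs p) (by rw [hTc, min_eq_right hle])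
    intro u hu
    by_contra hun
    refine disjoint_left.mp hRT hu ?_
    rw [hTeq]
    exact mem_sdiff.mpr ⟨(mem_sdiff.mp (hR hu)).1, hun⟩
  · right
    push Not at hle
    have hTt : (T p).card = c p + t - q := by rw [hTc, min_eq_left hle.le]
    have hdis : Disjoint (R \ N p) (T p) := hRT.mono_left sdiff_subset
    rw [← hTt, ← card_union_of_disjoint hdis]
    refine card_le_card (union_subset ?_ (hTs p))
    intro u hu
    obtain ⟨hu1, hu2⟩ := mem_sdiff.mp hu
    exact mem_sdiff.mpr ⟨(mem_sdiff.mp (hR hu1)).1, hu2⟩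

/-- the criterion -/
theorem crit_generic2 {W P : Type} [DecidableEq W] [Fintype P] [DecidableEq P]
    (N : P → Finset W) (k t q : ℕ) (hk : Fintype.card P = k)
    (h1 : ∀ p, 2 * k ≤ (N p).card + t)
    (A R : Finset W) (hA : A.card + q = 2 * k) (hRA : R ⊆ A) (hR : R.card = k)
    (J Q : Finset P) (hJ : J.card = q) (hJQ : Disjoint J Q) (hQ : t ≤ Q.card)
    (c : P → ℕ) (hc : ∀ p ∈ J, c p ≤ (N p \ A).card)
    (hthr : ∀ F : Finset W, (J.filter fun p => c p ≤ ((N p \ A) ∩ F).card).card ≤ F.card)
    (hroots : ∀ p ∈ J, R ⊆ N p ∨ (R \ N p).card + (c p + t - q) ≤ (A \ N p).card) :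
    Crit (fun p => if p ∈ Q then A else N p) k R := by
  classical
  intro D hD
  unfold dead
  set F := univ.filter (fun p : P => ((if p ∈ Q then A else N p) \ D).card ≤ k) with hF
  by_cases hDk : k ≤ D.card
  · refine le_trans (card_filter_le _ _) ?_
    rw [card_univ, hk]
    exact hDk
  push Not at hDk
  have hARc : (A \ R).card = A.card - R.card := card_sdiff_of_subset hRA
  have hRAc := card_le_card hRA
  by_cases hsub : A \ R ⊆ D
  · -- the generic players are dead
    set D' := D \ (A \ R) with hD'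
    have hD'c : D'.card = D.card - (A \ R).card := card_sdiff_of_subset hsub
    have hsubc := card_le_card hsub
    set J' := J.filter (fun p => c p ≤ ((N p \ A) ∩ D').card) with hJ'
    have hJ'c : J'.card ≤ D'.card := hthr D'
    have hFsub : F ⊆ (univ \ J) ∪ J' := by
      intro p hp
      by_cases hpJ : p ∈ J
      · refine mem_union_right _ (mem_filter.mpr ⟨hpJ, ?_⟩)
        by_contra hlt
        push Not at hlt
        have hpQ : p ∉ Q := fun h => disjoint_left.mp hJQ hpJ h
        have hle : (N p \ D).card ≤ k := by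
          have := (mem_filter.mp hp).2
          rwa [if_neg hpQ] at this
        have hdis : Disjoint (R ∩ N p) ((N p \ A) \ D') := by
          rw [disjoint_left]
          intro u hu hu'
          exact (mem_sdiff.mp (mem_sdiff.mp hu').1).2 (hRA (mem_inter.mp hu).1)
        have hsubs : (R ∩ N p) ∪ ((N p \ A) \ D') ⊆ N p \ D := by
          intro u hu
          rcases mem_union.mp hu with hu | hu
          · obtain ⟨hu1, hu2⟩ := mem_inter.mp hu
            exact mem_sdiff.mpr ⟨hu2, fun h => disjoint_left.mp hD h hu1⟩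
          · obtain ⟨hu1, hu2⟩ := mem_sdiff.mp hu
            obtain ⟨hu3, hu4⟩ := mem_sdiff.mp hu1
            refine mem_sdiff.mpr ⟨hu3, fun h => hu2 (mem_sdiff.mpr ⟨h, fun h' => ?_⟩)⟩
            exact hu4 (mem_sdiff.mp h').1
        have h2 := card_le_card hsubs
        rw [card_union_of_disjoint hdis] at h2
        have h3 : (R ∩ N p).card + (R \ N p).card = R.card := card_inter_add_card_sdiff R (N p)
        have h4 : (A ∩ N p).card + (A \ N p).card = A.card := card_inter_add_card_sdiff A (N p)
        have h5 : (N p ∩ A).card + (N p \ A).card = (N p).card :=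
          card_inter_add_card_sdiff (N p) A
        have h6 : ((N p \ A) ∩ D').card + ((N p \ A) \ D').card = (N p \ A).card :=
          card_inter_add_card_sdiff (N p \ A) D'
        rw [inter_comm] at h5
        have h7 := h1 p
        have h8 := hc p hpJ
        rcases hroots p hpJ with hRN | hRN
        · have h9 : (R \ N p).card = 0 := by
            rw [card_eq_zero, sdiff_eq_empty_iff_subset]
            exact hRN
          omega
        · omega
      · exact mem_union_left _ (mem_sdiff.mpr ⟨mem_univ _, hpJ⟩)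
    have h8 := card_le_card hFsub
    have h9 := card_union_le (univ \ J) J'
    rw [card_sdiff_of_subset (subset_univ _), card_univ, hk] at h9
    omega
  · -- the generic players are alive
    obtain ⟨u, huAR, huD⟩ := not_subset.mp hsub
    obtain ⟨huA, huR⟩ := mem_sdiff.mp huAR
    have hAD : k < (A \ D).card := by
      have hins : insert u R ⊆ A \ D := by
        intro x hx
        rcases mem_insert.mp hx with rfl | hx
        · exact mem_sdiff.mpr ⟨huA, huD⟩
        · exact mem_sdiff.mpr ⟨hRA hx, fun h => disjoint_left.mp hD h hx⟩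
      have h2 := card_le_card hins
      rw [card_insert_of_notMem huR] at h2
      omega
    have hFQ : F ⊆ univ \ Q := by
      intro p hp
      refine mem_sdiff.mpr ⟨mem_univ _, fun h => ?_⟩
      have := (mem_filter.mp hp).2
      rw [if_pos h] at this
      omega
    have h8 := card_le_card hFQ
    rw [card_sdiff_of_subset (subset_univ _), card_univ, hk] at h8
    rcases F.eq_empty_or_nonempty with h0 | ⟨p, hp⟩
    · rw [h0]
      simp
    · have hpQ : p ∉ Q := (mem_sdiff.mp (hFQ hp)).2
      have hle : (N p \ D).card ≤ k := by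
        have := (mem_filter.mp hp).2
        rwa [if_neg hpQ] at this
      have h9 := le_card_sdiff D (N p)
      have h10 := h1 p
      omega

/-- thresholds of the special players -/
theorem exists_special_thr {W P : Type} [DecidableEq W] [Fintype P] [DecidableEq P]
    (N : P → Finset W) (t q : ℕ) (A : Finset W) (J : Finset P) (hJ : J.card = q) (w : P → W)
    (hw : ∀ p ∈ J, w p ∈ N p ∧ w p ∉ A)
    (hwi : ∀ p ∈ J, ∀ p' ∈ J, w p = w p' → p = p') :
    ∃ c : P → ℕ, (∀ p ∈ J, c p ≤ (N p \ A).card) ∧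
      2 * ∑ p ∈ J, (c p + t - q) ≤ t * (t + 1) ∧
      ∀ F : Finset W, (J.filter fun p => c p ≤ ((N p \ A) ∩ F).card).card ≤ F.card := by
  classical
  obtain ⟨c, hc, hg, hF⟩ := exists_thresholds_ord (fun i : {p // p ∈ J} => N i.1 \ A) (by
    intro s
    rw [← card_image_of_injOn (s := s) (f := fun i => w i.1) (by
      intro i _ j _ hij
      exact Subtype.ext (hwi i.1 i.2 j.1 j.2 hij))]
    refine card_le_card ?_
    intro x hx
    obtain ⟨i, hi, rfl⟩ := mem_image.mp hx
    exact mem_biUnion.mpr ⟨i, hi, mem_sdiff.mpr (hw i.1 i.2)⟩)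
  have hJc : Fintype.card {p // p ∈ J} = q := by rw [Fintype.card_coe, hJ]
  refine ⟨fun p => if h : p ∈ J then c ⟨p, h⟩ else 0, ?_, ?_, ?_⟩
  · intro p hp
    simp only [hp, dif_pos]
    exact (hc ⟨p, hp⟩).2
  · have h1 : ∑ p ∈ J, ((if h : p ∈ J then c ⟨p, h⟩ else 0) + t - q) =
        ∑ i : {p // p ∈ J}, (c i + t - q) := by
      rw [← sum_coe_sort J]
      refine sum_congr rfl fun i _ => ?_
      simp
    rw [h1]
    have h2 := hg (fun x => x + t - q) (fun a b hab => by
      show a + t - q ≤ b + t - q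
      omega)
    rw [hJc] at h2
    have h3 := two_sum_shift t q
    have h4 : ∑ j ∈ range q, (fun x => x + t - q) (j + 1) = ∑ j ∈ range q, (j + 1 + t - q) := rfl
    rw [h4] at h2
    omega
  · intro F
    refine le_trans (le_of_eq ?_) (hF F)
    rw [← card_map ⟨Subtype.val, Subtype.val_injective⟩]
    congr 1
    ext p
    simp only [mem_filter, mem_map, mem_univ, true_and, Function.Embedding.coeFn_mk]
    constructor
    · rintro ⟨hp, h⟩
      rw [dif_pos hp] at h
      exact ⟨⟨p, hp⟩, h, rfl⟩
    · rintro ⟨i, hi, rfl⟩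
      refine ⟨i.2, ?_⟩
      rw [dif_pos i.2]
      exact hi

private theorem sum_sdiff_eq {W P : Type} [DecidableEq W] [Fintype P] (N : P → Finset W)
    (A : Finset W) : (∑ p : P, (A \ N p).card) = ∑ u ∈ A, mis N u := by
  have h1 : ∀ p : P, (A \ N p).card = ∑ u ∈ A, if u ∉ N p then 1 else 0 := by
    intro p
    rw [← Finset.card_filter]
    congr 1
    ext u
    simp [Finset.mem_sdiff]
  have h2 : ∀ u : W, mis N u = ∑ p : P, if u ∉ N p then 1 else 0 := by
    intro u
    unfold mis
    rw [Finset.card_filter]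
  simp_rw [h1, h2]
  exact Finset.sum_comm

/-- a finite set all of whose members have value more than `β` -/
private theorem card_mul_le {T : Type} (S : Finset T) (f : T → ℕ) (β : ℕ)
    (h : ∀ x ∈ S, β < f x) : S.card * (β + 1) ≤ ∑ x ∈ S, f x := by
  have := Finset.card_nsmul_le_sum S f (β + 1) (fun x hx => h x hx)
  simpa [smul_eq_mul] using this

/-- the combinatorial statement -/
theorem comb_main2 {W P : Type} [Fintype W] [DecidableEq W] [Fintype P] [DecidableEq P]
    (N : P → Finset W) (k t : ℕ) (hk : Fintype.card P = k) (hk1 : 1 ≤ k)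
    (htk : t ^ 2 + 11 * t ≤ 2 * k + 8) (hk52 : 52 * t ≤ k + 48)
    (h1 : ∀ p, 2 * k ≤ (N p).card + t)
    (h2 : ∀ Y : Finset P, Y.Nonempty → k + Y.card ≤ (Y.biUnion N).card) :
    ∃ (R : Finset W) (N' : P → Finset W), R.card = k ∧ Crit N' k R ∧
      ∀ a a' : P → W, (∀ p, a p ∈ N' p ∧ a' p ∈ N' p ∧ a p ≠ a' p) →
        (∀ p p', p ≠ p' → a p ≠ a p' ∧ a p ≠ a' p' ∧ a' p ≠ a' p') →
        ∃ σ : P → P, Function.Injective σ ∧ ∀ p, a p ∈ N (σ p) ∧ a' p ∈ N (σ p) := by
  classical
  have hcardW : k ≤ Fintype.card W := by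
    have hne : (univ : Finset P).Nonempty := by
      rw [← Finset.card_pos, Finset.card_univ]; omega
    have h := h2 univ hne
    have h' : ((univ : Finset P).biUnion N).card ≤ Fintype.card W := Finset.card_le_univ _
    omega
  obtain ⟨R0, hR0, hpop⟩ := exists_popular N k hcardW
  by_cases hC : Crit N k R0
  · refine ⟨R0, N, hR0, hC, ?_⟩
    intro a a' ha _
    exact ⟨id, Function.injective_id, fun p => ⟨(ha p).1, (ha p).2.1⟩⟩
  have htk' : t < k := by omega
  unfold Crit at hC
  push Not at hC
  obtain ⟨D0, hD0, hbad⟩ := hC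
  obtain ⟨hdk, hkd, ht1, hsumD, hmisR⟩ := bad_bounds N k t hk htk' h1 R0 D0 hpop hD0 hbad
  set β := k / 4 with hβ
  have hk4 : k < 4 * (β + 1) := by omega
  have ht14 : 4 * (t - 1) ≤ k := by omega
  have ht4 : t - 1 ≤ β := by omega
  set B0 := D0.filter (fun u => β < mis N u) with hB0
  have hB0sub : B0 ⊆ D0 := Finset.filter_subset _ _
  have hB0card : B0.card ≤ 4 * (t - 1) := by
    have hA1 : B0.card * (β + 1) ≤ ∑ u ∈ B0, mis N u :=
      card_mul_le B0 (fun u => mis N u) β (fun x hx => (Finset.mem_filter.1 hx).2)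
    have hA2 : ∑ u ∈ B0, mis N u ≤ ∑ u ∈ D0, mis N u :=
      Finset.sum_le_sum_of_subset hB0sub
    have hA3 : B0.card * (β + 1) ≤ (4 * (t - 1)) * (β + 1) := by
      calc B0.card * (β + 1) ≤ k * (t - 1) := by omega
        _ ≤ (4 * (β + 1)) * (t - 1) := Nat.mul_le_mul_right _ hk4.le
        _ = (4 * (t - 1)) * (β + 1) := by ring
    exact Nat.le_of_mul_le_mul_right hA3 (Nat.succ_pos β)
  have hdRD : Disjoint R0 D0 := hD0.symm
  set A := (R0 ∪ D0) \ B0 with hAdef
  have hB0P : B0 ⊆ R0 ∪ D0 := hB0sub.trans Finset.subset_union_right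
  have hP0card : (R0 ∪ D0).card = k + D0.card := by
    rw [Finset.card_union_of_disjoint hdRD, hR0]
  have hAcard : A.card = k + D0.card - B0.card := by
    rw [hAdef, Finset.card_sdiff_of_subset hB0P, hP0card]
  have hBD : B0.card ≤ D0.card := Finset.card_le_card hB0sub
  obtain ⟨q, hq⟩ : ∃ q, q = k - D0.card + B0.card := ⟨_, rfl⟩
  have hAq : A.card + q = 2 * k := by omega
  have hqt0 : q ≤ 5 * t - 4 := by omega
  have hqle : q ≤ k := by omega
  have hqt : 2 * q + t * (t + 1) ≤ 2 * k := by
    have e : t * (t + 1) = t ^ 2 + t := by ring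
    omega
  have hmisA : ∀ u ∈ A, mis N u ≤ β := by
    intro u hu
    rw [hAdef, Finset.mem_sdiff, Finset.mem_union] at hu
    rcases hu.1 with h | h
    · exact (hmisR u h).trans ht4
    · by_contra hlt
      exact hu.2 (Finset.mem_filter.2 ⟨h, not_le.1 hlt⟩)
  have hsumR : ∑ u ∈ R0, mis N u ≤ k * (t - 1) := by
    have := Finset.sum_le_card_nsmul R0 (fun u => mis N u) (t - 1) (fun r hr => hmisR r hr)
    rw [hR0] at this
    simpa [smul_eq_mul] using this
  have hsumA : ∑ p : P, (A \ N p).card ≤ 2 * k * (t - 1) := by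
    rw [sum_sdiff_eq]
    have hA1 : ∑ u ∈ A, mis N u ≤ ∑ u ∈ R0 ∪ D0, mis N u :=
      Finset.sum_le_sum_of_subset Finset.sdiff_subset
    rw [Finset.sum_union hdRD] at hA1
    have : 2 * k * (t - 1) = k * (t - 1) + k * (t - 1) := by ring
    omega
  set Bp := (univ : Finset P).filter (fun p => β < (A \ N p).card) with hBp
  have hBpcard : Bp.card ≤ 8 * (t - 1) := by
    have hA1 : Bp.card * (β + 1) ≤ ∑ p ∈ Bp, (A \ N p).card :=
      card_mul_le Bp (fun p => (A \ N p).card) β (fun x hx => (Finset.mem_filter.1 hx).2)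
    have hA2 : ∑ p ∈ Bp, (A \ N p).card ≤ ∑ p : P, (A \ N p).card :=
      Finset.sum_le_sum_of_subset (Finset.subset_univ _)
    have hA3 : Bp.card * (β + 1) ≤ (8 * (t - 1)) * (β + 1) := by
      calc Bp.card * (β + 1) ≤ 2 * k * (t - 1) := by omega
        _ ≤ 2 * (4 * (β + 1)) * (t - 1) :=
          Nat.mul_le_mul_right _ (Nat.mul_le_mul_left _ hk4.le)
        _ = (8 * (t - 1)) * (β + 1) := by ring
    exact Nat.le_of_mul_le_mul_right hA3 (Nat.succ_pos β)
  obtain ⟨J, w, hJ, hw, hwi⟩ := exists_special N k hk h2 A q hAq hqle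
  obtain ⟨c, hc1, hc2, hc3⟩ := exists_special_thr N t q A J hJ w hw hwi
  obtain ⟨R, hRA, hR, hroots⟩ := exists_roots2 N k t q A hAq J c hc2 hqt
  set Q := (univ \ Bp) \ J with hQdef
  have hJQ : Disjoint J Q := Finset.disjoint_sdiff
  have hQcard : k ≤ Q.card + 8 * (t - 1) + q := by
    have e1 : (univ \ Bp : Finset P).card = k - Bp.card := by
      rw [Finset.card_sdiff_of_subset (Finset.subset_univ _), Finset.card_univ, hk]
    have e2 : (univ \ Bp : Finset P).card - J.card ≤ Q.card := by
      rw [hQdef]; exact Finset.le_card_sdiff J _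
    omega
  have hQ3 : 2 * β + β ≤ Q.card := by omega
  have hQt : t ≤ Q.card := by
    have : t ≤ 3 * β := by
      rcases Nat.lt_or_ge t 2 with h | h
      · have : t = 1 := by omega
        subst this
        omega
      · omega
    omega
  refine ⟨R, fun p => if p ∈ Q then A else N p, hR,
    crit_generic2 N k t q hk h1 A R hAq hRA hR J Q hJ hJQ hQt c hc1 hc3 hroots, ?_⟩
  intro a a' ha hdis
  have hτ : ∀ p ∈ Q, (A \ N p).card ≤ β := by
    intro p hp
    rw [hQdef, Finset.mem_sdiff, Finset.mem_sdiff] at hp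
    by_contra hlt
    exact hp.1.2 (Finset.mem_filter.2 ⟨Finset.mem_univ _, not_le.1 hlt⟩)
  have haA : ∀ p ∈ Q, a p ∈ A ∧ a' p ∈ A ∧ a p ≠ a' p := by
    intro p hp
    have h := ha p
    simp only [hp, if_true] at h
    exact h
  obtain ⟨σ, hσ1, hσ2, hσ3⟩ := hall_pairs N A β β Q hmisA hτ hQ3 a a' haA
    (fun p _ p' _ hne => hdis p p' hne)
  refine ⟨fun p => if p ∈ Q then σ p else p, ?_, ?_⟩
  · intro p p' hpp
    by_cases hp : p ∈ Q <;> by_cases hp' : p' ∈ Q
    · simp only [hp, hp', if_true] at hpp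
      exact hσ2 p hp p' hp' hpp
    · simp only [hp, hp', if_true, if_false] at hpp
      exact absurd (hpp ▸ hσ1 p hp) hp'
    · simp only [hp, hp', if_true, if_false] at hpp
      exact absurd (hpp ▸ hσ1 p' hp') hp
    · simp only [hp, hp', if_false] at hpp
      exact hpp
  · intro p
    by_cases hp : p ∈ Q
    · simp only [hp, if_true]
      exact hσ3 p hp
    · have h := ha p
      simp only [hp, if_false] at h
      simp only [hp, if_false]
      exact ⟨h.1, h.2.1⟩

/-- **Square root theorem.** -/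
theorem sqrt_main2 {V : Type} [Fintype V] [DecidableEq V] (G : SimpleGraph V)
    [DecidableRel G.Adj] (k t : ℕ) (hk : 1 ≤ k) (htk : t ^ 2 + 11 * t ≤ 2 * k + 8)
    (hk52 : 52 * t ≤ k + 48)
    (hV : 3 * k ≤ Fintype.card V) (hG : KConn G (2 * k))
    (X : Finset V) (hX : X.card = k) (hout : ∀ x ∈ X, 2 * k ≤ (outN G X x).card + t) :
    DisjCycles G X := by
  classical
  have hXne : X.Nonempty := card_pos.1 (by omega)
  -- ports
  set W := {v // v ∉ X} with hW
  let P := {x // x ∈ X}
  let e : W ↪ V := ⟨Subtype.val, Subtype.val_injective⟩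
  let N : P → Finset W := fun p => (univ : Finset W).filter fun w => w.1 ∈ outN G X p.1
  have hNmap : ∀ p, (N p).map e = outN G X p.1 := by
    intro p
    ext v
    simp only [N, mem_map, mem_filter, mem_univ, true_and]
    constructor
    · rintro ⟨w, hw, rfl⟩
      exact hw
    · intro hv
      have hvX : v ∉ X := (mem_filter.mp hv).2.2
      exact ⟨⟨v, hvX⟩, hv, rfl⟩
  have hNcard : ∀ p, (N p).card = (outN G X p.1).card := fun p => by rw [← hNmap p, card_map]
  have hP : Fintype.card P = k := by rw [Fintype.card_coe, hX]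
  obtain ⟨R, N', hRk, hcrit, hre⟩ := comb_main2 N k t hP hk htk hk52
    (fun p => by rw [hNcard]; exact hout p.1 p.2) (by
      intro Y hY
      have h1 := nbhd_card G k hV hG X hX (Y.map ⟨Subtype.val, Subtype.val_injective⟩)
        (fun v hv => by
          obtain ⟨p, -, rfl⟩ := mem_map.mp hv
          exact p.2) (by simpa using hY)
      rw [card_map] at h1
      refine h1.trans (le_of_eq ?_)
      rw [← card_map e]
      congr 1
      ext v
      simp only [mem_biUnion, mem_map, Function.Embedding.coeFn_mk]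
      constructor
      · rintro ⟨x, ⟨p, hp, rfl⟩, hv⟩
        have hv' : v ∈ (N p).map e := by rw [hNmap]; exact hv
        obtain ⟨w, hw, rfl⟩ := mem_map.mp hv'
        exact ⟨w, ⟨p, hp, hw⟩, rfl⟩
      · rintro ⟨w, ⟨p, hp, hw⟩, rfl⟩
        exact ⟨p.1, ⟨p, hp, rfl⟩, by rw [← hNmap p]; exact mem_map_of_mem e hw⟩)
  have hmapX : ∀ S : Finset W, Disjoint (S.map e) X := by
    intro S
    rw [disjoint_left]
    intro v hv
    obtain ⟨w, -, rfl⟩ := mem_map.mp hv
    exact w.2
  have hbig : ∃ v, v ∉ X ∧ v ∉ R.map e := by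
    by_contra hcon
    push Not at hcon
    have h1 : (univ : Finset V) ⊆ X ∪ R.map e := by
      intro v _
      rw [mem_union]
      by_cases hv : v ∈ X
      · exact Or.inl hv
      · exact Or.inr (hcon v hv)
    have h2 := card_le_card h1
    have h3 := card_union_le X (R.map e)
    rw [card_univ] at h2
    rw [card_map] at h3
    omega
  obtain ⟨S, hdis, hSX, hconn, htwo⟩ := parts_graph G X (R.map e) (hmapX R).symm
    (by rw [card_map, hRk, hX]) hXne hbig (by
      intro Z hZX hZ
      have h1 : (X ∪ Z).card < 2 * k := by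
        have := card_union_le X Z
        omega
      have h2 : {v | v ∉ X ∪ Z} = {v | v ∉ X ∧ v ∉ Z} := by
        ext v
        simp [mem_union]
      rw [← h2]
      exact hG.2 (X ∪ Z) h1)
    (fun p => (N' p).map e) (fun p => hmapX _) (by
      intro D hDX hDR
      set D' : Finset W := (univ : Finset W).filter fun w => w.1 ∈ D with hD'
      have hD'e : D'.map e = D := by
        ext v
        simp only [hD', mem_map, mem_filter, mem_univ, true_and]
        constructor
        · rintro ⟨w, hw, rfl⟩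
          exact hw
        · intro hv
          exact ⟨⟨v, fun h => disjoint_left.mp hDX hv h⟩, hv, rfl⟩
      have h1 := hcrit D' (by
        rw [disjoint_left]
        intro w hw hwR
        exact absurd (mem_map_of_mem e hwR)
          (disjoint_left.mp hDR (show e w ∈ D from (mem_filter.mp hw).2)))
      unfold dead at h1
      rw [← card_map e, hD'e] at h1
      refine le_trans (le_of_eq ?_) h1
      congr 1
      refine filter_congr fun p _ => ?_
      rw [hX, ← hD'e, ← Finset.map_sdiff, card_map])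
  choose a b hab using htwo
  have hex : ∀ p, ∃ u u' : W, u ≠ u' ∧ u ∈ N' p ∧ u' ∈ N' p ∧ u.1 ∈ S p ∧ u'.1 ∈ S p := by
    intro p
    obtain ⟨h1, h2, h3, h4, h5⟩ := hab p
    obtain ⟨u, hu, hua⟩ := mem_map.mp h2
    obtain ⟨u', hu', hub⟩ := mem_map.mp h3
    refine ⟨u, u', ?_, hu, hu', ?_, ?_⟩
    · rintro rfl
      exact h1 (hua.symm.trans hub)
    · have : u.1 = a p := hua
      rw [this]; exact h4
    · have : u'.1 = b p := hub
      rw [this]; exact h5
  choose u u' hu using hex
  obtain ⟨σ, hσ, hσN⟩ := hre u u' (fun p => ⟨(hu p).2.1, (hu p).2.2.1, (hu p).1⟩) (by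
    intro p p' hpp
    have hd := Set.disjoint_left.mp (hdis p p' hpp)
    refine ⟨?_, ?_, ?_⟩
    · intro h
      exact hd (hu p).2.2.2.1 (by rw [h]; exact (hu p').2.2.2.1)
    · intro h
      exact hd (hu p).2.2.2.1 (by rw [h]; exact (hu p').2.2.2.2)
    · intro h
      exact hd (hu p).2.2.2.2 (by rw [h]; exact (hu p').2.2.2.2))
  have hσb : Function.Bijective σ := Finite.injective_iff_bijective.mp hσ
  let τ : P → P := (Equiv.ofBijective σ hσb).symm
  have hτ : ∀ p, σ (τ p) = p := fun p => (Equiv.ofBijective σ hσb).apply_symm_apply p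
  have hτi : Function.Injective τ := (Equiv.ofBijective σ hσb).symm.injective
  refine cycles_of_parts G X (fun p => S (τ p)) (fun p q hpq => hdis _ _ fun h => hpq (hτi h))
    (fun p => hSX _) (fun p => hconn _) fun p => ?_
  have h1 := hσN (τ p)
  rw [hτ p] at h1
  have hadj : ∀ w : W, w ∈ N p → G.Adj p.1 w.1 := by
    intro w hw
    have := (mem_filter.mp hw).2
    exact (mem_filter.mp this).2.1
  exact ⟨(u (τ p)).1, (u' (τ p)).1, fun h => (hu (τ p)).1 (Subtype.ext h), (hu (τ p)).2.2.2.1,
    (hu (τ p)).2.2.2.2, hadj _ h1.1, hadj _ h1.2⟩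

end Pool.Agent.Helper93.DC
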