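import Pool.Agent.Helper46.DC.SpreadMain

set_option autoImplicit false

/-!
# Disjoint cycles through specified vertices: few common neighbours of cliques

`bad_pair`: the failure of the criterion, in terms of degrees.
`tstar`: if every `q`-clique inside `X` has few common neighbours, connectivity `2k + s` suffices.
-/

namespace Pool.Agent.Helper93.DC

open Finset

open Pool.Agent.DC (KConn DisjCycles outN criterion kconn_degree outN_card)

/-- The failure of the criterion: a set `K ⊆ X` and a smaller set `D` outside `X ∪ R` which takes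
many of the neighbours of every vertex of `K`. -/
theorem bad_pair {V : Type} [Fintype V] [DecidableEq V] (G : SimpleGraph V) [DecidableRel G.Adj]
    (k s : ℕ) (hk : 1 ≤ k) (hG : KConn G (2 * k + s))
    (X R : Finset V) (hX : X.card = k) (hXR : Disjoint X R) (hR : R.card = k)
    (hno : ¬ DisjCycles G X) :
    ∃ K D : Finset V, K ⊆ X ∧ Disjoint D X ∧ Disjoint D R ∧ D.card < K.card ∧
      (∀ x ∈ K, k + s ≤ (D.filter fun v => G.Adj x v).card +
        (X.filter fun v => G.Adj x v).card) ∧
      ∀ x ∈ X, x ∉ K → k < (outN G X x \ D).card := by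
  by_contra hcon
  apply hno
  have hV : 2 * k + s < Fintype.card V := hG.1
  refine criterion G X R hXR (by rw [hR, hX]) (card_pos.1 (by omega)) ?_ ?_ ?_
  · by_contra hc
    push Not at hc
    have h1 : (univ : Finset V) ⊆ X ∪ R := by
      intro v _
      rw [mem_union]
      by_cases hv : v ∈ X
      · exact Or.inl hv
      · exact Or.inr (hc v hv)
    have h2 := card_le_card h1
    have h3 := card_union_le X R
    rw [card_univ] at h2
    omega
  · intro Z hZX hZ
    have h1 : (X ∪ Z).card < 2 * k + s := by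
      have := card_union_le X Z
      omega
    have h2 : {v | v ∉ X ∪ Z} = {v | v ∉ X ∧ v ∉ Z} := by
      ext v
      simp [mem_union]
    rw [← h2]
    exact hG.2 (X ∪ Z) h1
  · intro D hDX hDR
    change (X.filter fun x => (outN G X x \ D).card ≤ X.card).card ≤ D.card
    rw [hX]
    by_contra hlt
    push Not at hlt
    apply hcon
    refine ⟨X.filter fun x => (outN G X x \ D).card ≤ k, D, filter_subset _ _, hDX, hDR, hlt,
      ?_, ?_⟩
    · intro x hx
      obtain ⟨hxX, hx2⟩ := mem_filter.mp hx
      have h1 := kconn_degree G hG x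
      have h2 : (univ.filter fun y => G.Adj x y) ⊆
          ((outN G X x \ D) ∪ (D.filter fun v => G.Adj x v)) ∪ (X.filter fun v => G.Adj x v) := by
        intro y hy
        have hy := (mem_filter.mp hy).2
        rw [mem_union, mem_union, mem_sdiff, mem_filter, mem_filter]
        by_cases hyX : y ∈ X
        · exact Or.inr ⟨hyX, hy⟩
        · left
          by_cases hyD : y ∈ D
          · exact Or.inr ⟨hyD, hy⟩
          · exact Or.inl ⟨mem_filter.mpr ⟨mem_univ _, hy, hyX⟩, hyD⟩
      have h3 := card_le_card h2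
      have h4 := card_union_le ((outN G X x \ D) ∪ (D.filter fun v => G.Adj x v))
        (X.filter fun v => G.Adj x v)
      have h5 := card_union_le (outN G X x \ D) (D.filter fun v => G.Adj x v)
      omega
    · intro x hxX hx
      by_contra hle
      push Not at hle
      exact hx (mem_filter.mpr ⟨hxX, hle⟩)

/-- The common neighbours of `Q` in `A`. -/
def comN {V : Type} [DecidableEq V] (G : SimpleGraph V) [DecidableRel G.Adj]
    (A Q : Finset V) : Finset V := A.filter fun v => ∀ x ∈ Q, G.Adj x v

theorem mem_comN {V : Type} [DecidableEq V] (G : SimpleGraph V) [DecidableRel G.Adj]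
    (A Q : Finset V) (v : V) : v ∈ comN G A Q ↔ v ∈ A ∧ ∀ x ∈ Q, G.Adj x v := by
  rw [comN, mem_filter]

/-- Double counting: the sum over a set `Q` of the numbers of neighbours in `A`. -/
theorem sum_nbrs_le {V : Type} [DecidableEq V] (G : SimpleGraph V) [DecidableRel G.Adj]
    (Q A : Finset V) :
    ∑ x ∈ Q, (A.filter fun v => G.Adj x v).card ≤
      (Q.card - 1) * A.card + (comN G A Q).card := by
  calc ∑ x ∈ Q, (A.filter fun v => G.Adj x v).card
      = ∑ x ∈ Q, ∑ v ∈ A, if G.Adj x v then 1 else 0 := by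
        refine sum_congr rfl fun x _ => ?_
        rw [card_filter]
    _ = ∑ v ∈ A, ∑ x ∈ Q, if G.Adj x v then 1 else 0 := sum_comm
    _ ≤ ∑ v ∈ A, ((Q.card - 1) + if ∀ x ∈ Q, G.Adj x v then 1 else 0) := by
        refine sum_le_sum fun v _ => ?_
        rw [← card_filter]
        by_cases hall : ∀ x ∈ Q, G.Adj x v
        · rw [if_pos hall]
          have := card_filter_le Q (fun x => G.Adj x v)
          omega
        · rw [if_neg hall]
          push Not at hall
          obtain ⟨x, hx, hxv⟩ := hall
          have h1 : (Q.filter fun x => G.Adj x v) ⊆ Q.erase x := by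
            intro y hy
            obtain ⟨hy1, hy2⟩ := mem_filter.mp hy
            rw [mem_erase]
            refine ⟨?_, hy1⟩
            rintro rfl
            exact hxv hy2
          have h2 := card_le_card h1
          rw [card_erase_of_mem hx] at h2
          omega
    _ = (Q.card - 1) * A.card + (comN G A Q).card := by
        rw [sum_add_distrib, sum_const, smul_eq_mul, mul_comm, comN, card_filter]

/-- Greedy: if every vertex of `K` has at most `m` non-neighbours in `K` (itself included), `K`
contains a `q`-clique as soon as `(q - 1) m < |K|`. -/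
theorem greedy_clique {V : Type} [DecidableEq V] (G : SimpleGraph V) [DecidableRel G.Adj]
    (K : Finset V) (m q : ℕ) (hm : ∀ x ∈ K, (K.filter fun y => ¬ G.Adj x y).card ≤ m)
    (hq : (q - 1) * m < K.card) : ∃ Q ⊆ K, G.IsNClique q Q := by
  have key : ∀ i, i ≤ q → ∃ Q ⊆ K, G.IsNClique i Q := by
    intro i
    induction i with
    | zero =>
      intro _
      exact ⟨∅, empty_subset _, by simp [SimpleGraph.isNClique_iff]⟩
    | succ i ih =>
      intro hi
      obtain ⟨Q, hQK, hQ⟩ := ih (by omega)
      have h1 : (Q.biUnion fun x => K.filter fun y => ¬ G.Adj x y).card ≤ Q.card * m :=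
        card_biUnion_le_card_mul _ _ _ fun x hx => hm x (hQK hx)
      rw [hQ.card_eq] at h1
      have h2 : i * m ≤ (q - 1) * m := Nat.mul_le_mul_right m (by omega)
      obtain ⟨y, hyK, hy⟩ : ∃ y ∈ K, y ∉ Q.biUnion fun x => K.filter fun y => ¬ G.Adj x y := by
        by_contra hc
        push Not at hc
        have h3 : K ⊆ Q.biUnion fun x => K.filter fun y => ¬ G.Adj x y := fun y hy => hc y hy
        have h4 := card_le_card h3
        omega
      refine ⟨insert y Q, insert_subset hyK hQK, hQ.insert fun b hb => ?_⟩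
      by_contra hn
      apply hy
      rw [mem_biUnion]
      exact ⟨b, hb, mem_filter.mpr ⟨hyK, fun h => hn h.symm⟩⟩
  exact key q le_rfl

/-- **Theorem T\***, first form. -/
theorem tstar_local {V : Type} [Fintype V] [DecidableEq V] (G : SimpleGraph V)
    [DecidableRel G.Adj] (k s q : ℕ) (hk : 1 ≤ k) (hq : 2 ≤ q)
    (hs : (q - 2) * (k - 1) ≤ (q - 1) * s) (hG : KConn G (2 * k + s))
    (hV : 3 * k ≤ Fintype.card V) (X : Finset V) (hX : X.card = k)
    (hQ : ∀ Q ⊆ X, G.IsNClique q Q → ∑ x ∈ Q, (X.filter fun v => G.Adj x v).card +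
      (comN G Xᶜ Q).card + 2 ≤ k + q * s + q) :
    DisjCycles G X := by
  by_contra hno
  obtain ⟨R, hRX, hR⟩ := exists_subset_card_eq (s := Xᶜ) (n := k)
    (by rw [card_compl, hX]; omega)
  have hXR : Disjoint X R := by
    rw [disjoint_right]
    intro v hv
    have := hRX hv
    rwa [mem_compl] at this
  obtain ⟨K, D, hKX, hDX, -, hDK, hdeg, -⟩ := bad_pair G k s hk hG X R hX hXR hR hno
  have hKk : K.card ≤ k := hX ▸ card_le_card hKX
  have hDle : ∀ x, (D.filter fun v => G.Adj x v).card ≤ D.card := fun x => card_filter_le _ _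
  -- non-neighbours inside `X`
  have hnon : ∀ x ∈ K, (K.filter fun y => ¬ G.Adj x y).card + s ≤ D.card := by
    intro x hx
    have h1 := hdeg x hx
    have h2 := hDle x
    have h3 : (X.filter fun y => G.Adj x y).card + (X.filter fun y => ¬ G.Adj x y).card =
        X.card := by
      rw [← card_union_of_disjoint (disjoint_filter_filter_not _ _ _), filter_union_filter_not_eq]
    have h4 : (K.filter fun y => ¬ G.Adj x y).card ≤ (X.filter fun y => ¬ G.Adj x y).card :=
      card_le_card (filter_subset_filter _ hKX)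
    omega
  obtain ⟨Q, hQK, hQc⟩ : ∃ Q ⊆ K, G.IsNClique q Q := by
    refine greedy_clique G K (K.card - 1 - s) q (fun x hx => ?_) ?_
    · have := hnon x hx
      omega
    · obtain ⟨x, hx⟩ : K.Nonempty := card_pos.mp (by omega)
      have h1 := hnon x hx
      have h2 : 1 ≤ (K.filter fun y => ¬ G.Adj x y).card :=
        card_pos.mpr ⟨x, mem_filter.mpr ⟨hx, G.irrefl⟩⟩
      obtain ⟨a, rfl⟩ : ∃ a, q = a + 2 := ⟨q - 2, by omega⟩
      obtain ⟨m, hm⟩ : ∃ m, K.card = s + 1 + m := ⟨K.card - s - 1, by omega⟩
      have h3 : K.card - 1 - s = m := by omega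
      rw [h3, hm]
      have h4 : a + 2 - 1 = a + 1 := by omega
      have h5 : a + 2 - 2 = a := by omega
      rw [h4]
      rw [h4, h5] at hs
      have h6 : a * (s + m) ≤ a * (k - 1) := Nat.mul_le_mul_left a (by omega)
      have h7 : a * (s + m) ≤ (a + 1) * s := h6.trans hs
      have h8 : a * m ≤ s := by nlinarith
      nlinarith
  have h1 := hQ Q (hQK.trans hKX) hQc
  have h2 : ∑ _x ∈ Q, (k + s) ≤ ∑ x ∈ Q, ((D.filter fun v => G.Adj x v).card +
      (X.filter fun v => G.Adj x v).card) := sum_le_sum fun x hx => hdeg x (hQK hx)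
  rw [sum_const, smul_eq_mul, sum_add_distrib, hQc.card_eq] at h2
  have h3 := sum_nbrs_le G Q D
  rw [hQc.card_eq] at h3
  have h4 : (comN G D Q).card ≤
      (comN G Xᶜ Q).card := by
    refine card_le_card fun v hv => ?_
    rw [mem_comN] at hv ⊢
    rw [mem_compl]
    exact ⟨disjoint_left.mp hDX hv.1, hv.2⟩
  have h5 : (q - 1) * D.card ≤ (q - 1) * (k - 1) := Nat.mul_le_mul_left _ (by omega)
  obtain ⟨a, rfl⟩ : ∃ a, q = a + 2 := ⟨q - 2, by omega⟩
  obtain ⟨b, rfl⟩ : ∃ b, k = b + 1 := ⟨k - 1, by omega⟩
  have h6 : a + 2 - 1 = a + 1 := by omega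
  have h7 : b + 1 - 1 = b := by omega
  rw [h6, h7] at h5
  rw [h6] at h3
  have e1 : (a + 2) * (b + 1 + s) = (a + 1) * b + (a + 2) * s + b + a + 2 := by ring
  rw [e1] at h2
  omega

/-- **Theorem T\***, in terms of common neighbours: if `(q - 2)(k - 1) ≤ (q - 1) s` and every
`q`-clique inside `X` has at most `q s - (q - 2)(k - 1)` common neighbours, connectivity `2k + s`
suffices. -/
theorem tstar {V : Type} [Fintype V] [DecidableEq V] (G : SimpleGraph V)
    [DecidableRel G.Adj] (k s q : ℕ) (hk : 1 ≤ k) (hq : 2 ≤ q)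
    (hs : (q - 2) * (k - 1) ≤ (q - 1) * s) (hG : KConn G (2 * k + s))
    (hV : 3 * k ≤ Fintype.card V) (X : Finset V) (hX : X.card = k)
    (hQ : ∀ Q ⊆ X, G.IsNClique q Q →
      (comN G univ Q).card + (q - 2) * (k - 1) ≤ q * s) :
    DisjCycles G X := by
  refine tstar_local G k s q hk hq hs hG hV X hX fun Q hQX hQc => ?_
  have h1 := hQ Q hQX hQc
  have h2 := sum_nbrs_le G Q X
  rw [hQc.card_eq, hX] at h2
  have h3 : (comN G X Q).card +
      (comN G Xᶜ Q).card =
      (comN G univ Q).card := by
    rw [← card_union_of_disjoint]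
    · congr 1
      ext v
      simp only [mem_union, mem_comN, mem_compl, mem_univ, true_and]
      tauto
    · rw [disjoint_left]
      intro v hv hv'
      rw [mem_comN] at hv hv'
      exact mem_compl.mp hv'.1 hv.1
  obtain ⟨a, rfl⟩ : ∃ a, q = a + 2 := ⟨q - 2, by omega⟩
  obtain ⟨b, rfl⟩ : ∃ b, k = b + 1 := ⟨k - 1, by omega⟩
  have h6 : a + 2 - 1 = a + 1 := by omega
  have h7 : b + 1 - 1 = b := by omega
  have h8 : a + 2 - 2 = a := by omega
  rw [h6] at h2
  rw [h7, h8] at h1
  have e1 : (a + 1) * (b + 1) = a * b + a + b + 1 := by ring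
  rw [e1] at h2
  omega

end Pool.Agent.Helper93.DC
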